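import Pool.Agent.H639Z.OP.Basic

set_option autoImplicit false
open MeasureTheory Filter Topology
open scoped ENNReal

namespace Pool.Agent.H639Z.OP

variable {d : ℕ}

namespace Nash

theorem corr {a : X d → ℝ} (ha : Integrable a volume) :
    Integrable (fun y => ∫ x, a x * a (x + y)) volume ∧
      ∫ y, ∫ x, a x * a (x + y) = (∫ x, a x) ^ 2 := by
  have h1 : Integrable (fun z : X d × X d => a z.1 * a z.2) (volume.prod volume) :=
    ha.mul_prod ha
  have hmp : MeasurePreserving (fun z : X d × X d => (z.1, z.1 + z.2))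
      ((volume : Measure (X d)).prod volume) (volume.prod volume) :=
    measurePreserving_prod_add volume volume
  have h2 : Integrable (fun z : X d × X d => a z.1 * a (z.1 + z.2)) (volume.prod volume) :=
    hmp.integrable_comp_of_integrable h1
  refine ⟨h2.integral_prod_right, ?_⟩
  have h3 : ∫ y, ∫ x, a x * a (x + y) = ∫ x, ∫ y, a x * a (x + y) :=
    (integral_integral_swap (f := fun x y => a x * a (x + y)) h2).symm
  rw [h3]
  have h4 : ∀ x, ∫ y, a x * a (x + y) = a x * ∫ y, a y := by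
    intro x
    rw [integral_const_mul, integral_add_left_eq_self]
  simp_rw [h4]
  rw [integral_mul_const, sq]

theorem ptw {p t : ℝ} (hp : 0 < p) (hp1 : p ≤ 1) (ht : 0 < t) {W : ℝ≥0∞} (hW : W ≠ ⊤) :
    ENNReal.ofReal ((t + W.toReal)⁻¹) ≤ ENNReal.ofReal (t ^ (p - 1)) * W ^ (-p) := by
  have ht1 : 0 < t ^ (p - 1) := Real.rpow_pos_of_pos ht _
  by_cases h0 : W = 0
  · rw [h0, ENNReal.zero_rpow_of_neg (by linarith), ENNReal.mul_top]
    · exact le_top
    · simpa using ht1
  · have hv : 0 < W.toReal := ENNReal.toReal_pos h0 hW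
    set v := W.toReal with hvdef
    have e : W = ENNReal.ofReal v := (ENNReal.ofReal_toReal hW).symm
    rw [e, ENNReal.ofReal_rpow_of_pos hv, ← ENNReal.ofReal_mul ht1.le]
    apply ENNReal.ofReal_le_ofReal
    have h1 := Real.geom_mean_le_arith_mean2_weighted hp.le (by linarith : 0 ≤ 1 - p) hv.le ht.le
      (by ring)
    have h2 : v ^ p * t ^ (1 - p) ≤ t + v := by nlinarith
    have h3 : t ^ (p - 1) * v ^ (-p) = (v ^ p * t ^ (1 - p))⁻¹ := by
      rw [mul_inv, Real.rpow_neg hv.le, ← Real.rpow_neg ht.le, neg_sub, mul_comm]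
    rw [h3]
    exact inv_anti₀ (mul_pos (Real.rpow_pos_of_pos hv _) (Real.rpow_pos_of_pos ht _)) h2

end Nash

theorem nash (trans_est : ∀ {f : P d}, H1 f → ∀ y : X d,
      ∫ x, (f.1 (x + y) - f.1 x) ^ 2 ≤ d * ‖y‖ ^ 2 * G f f)
    {f : P d} (hf : H1 f) (hi : Integrable f.1 volume) {h : ℝ} (hh : 0 < h) :
    B f f ≤ d * h ^ 2 * G f f + (h ^ d)⁻¹ * (∫ x, |f.1 x|) ^ 2 := by
  obtain ⟨c1, c2⟩ := Nash.corr (a := fun x => |f.1 x|) hi.abs
  have hG := G_nonneg f
  have hd : (0 : ℝ) ≤ d := Nat.cast_nonneg d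
  have key : ∀ y ∈ Set.Icc (0 : X d) (fun _ => h),
      B f f - d * h ^ 2 * G f f ≤ ∫ x, |f.1 x| * |f.1 (x + y)| := by
    intro y hy
    have hy' : ‖y‖ ≤ h := by
      rw [pi_norm_le_iff_of_nonneg hh.le]
      intro i
      rw [Real.norm_eq_abs, abs_of_nonneg (hy.1 i)]
      exact hy.2 i
    have t1 := trans_est hf y
    have m2 : MemLp (fun x => f.1 (x + y)) 2 volume :=
      hf.u2.comp_measurePreserving (measurePreserving_add_right volume y)
    have i1 := int_mul hf.u2 hf.u2
    have i2 := int_mul m2 m2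
    have i3 := int_mul hf.u2 m2
    have e1 : ∫ x, (f.1 (x + y) - f.1 x) ^ 2 =
        2 * B f f - 2 * ∫ x, f.1 x * f.1 (x + y) := by
      have e2 : ∀ x, (f.1 (x + y) - f.1 x) ^ 2 =
          (f.1 (x + y) * f.1 (x + y) + f.1 x * f.1 x) - 2 * (f.1 x * f.1 (x + y)) := by
        intro x; ring
      simp_rw [e2]
      have i4 : Integrable (fun x => f.1 (x + y) * f.1 (x + y) + f.1 x * f.1 x) volume := i2.add i1
      rw [integral_sub i4 (i3.const_mul 2), integral_add i2 i1, integral_const_mul,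
        integral_add_right_eq_self (fun x => f.1 x * f.1 x) y]
      unfold B
      ring
    have e3 : ∫ x, f.1 x * f.1 (x + y) ≤ ∫ x, |f.1 x| * |f.1 (x + y)| := by
      refine integral_mono i3 ?_ fun x => ?_
      · refine i3.abs.congr (Eventually.of_forall fun x => ?_)
        simp only [abs_mul]
      · simp only
        rw [← abs_mul]
        exact le_abs_self _
    have e4 : (d : ℝ) * ‖y‖ ^ 2 * G f f ≤ d * h ^ 2 * G f f := by gcongr
    have e5 : 0 ≤ (d : ℝ) * h ^ 2 * G f f := by positivity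
    linarith
  have hvol : (volume : Measure (X d)).real (Set.Icc (0 : X d) (fun _ => h)) = h ^ d := by
    rw [measureReal_def, Real.volume_Icc_pi_toReal (a := (0 : X d)) (b := fun _ => h) (fun _ => hh.le)]
    simp
  have hfin : (volume : Measure (X d)) (Set.Icc (0 : X d) (fun _ => h)) ≠ ⊤ :=
    isCompact_Icc.measure_lt_top.ne
  have s1 := setIntegral_ge_of_const_le_real measurableSet_Icc hfin key c1.integrableOn
  have s2 : ∫ y in Set.Icc (0 : X d) (fun _ => h), ∫ x, |f.1 x| * |f.1 (x + y)| ≤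
      ∫ y, ∫ x, |f.1 x| * |f.1 (x + y)| :=
    setIntegral_le_integral c1 (Eventually.of_forall fun y =>
      integral_nonneg fun x => by positivity)
  rw [c2] at s2
  rw [hvol] at s1
  have hp : 0 < h ^ d := by positivity
  have s3 : B f f - d * h ^ 2 * G f f ≤ (h ^ d)⁻¹ * (∫ x, |f.1 x|) ^ 2 := by
    rw [inv_mul_eq_div, le_div_iff₀ hp]
    linarith
  linarith

theorem l1_bound {p : ℝ} (hp : 0 < p) (hp1 : p ≤ 1) {V : X d → ℝ≥0∞} (hV : Measurable V)
    {f : P d} (hf : Dom V f) {T : Set (X d)} (hT : MeasurableSet T)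
    (hz : ∀ᵐ x ∂volume, x ∉ T → f.1 x = 0) {m : ℝ} (hm0 : 0 ≤ m)
    (hm : ∫⁻ x in T, V x ^ (-p) ≤ ENNReal.ofReal m) {t : ℝ} (ht : 0 < t) :
    Integrable f.1 volume ∧
      (∫ x, |f.1 x|) ^ 2 ≤ m * (t ^ p * B f f + t ^ (p - 1) * Pt V f f) := by
  set T' : Set (X d) := T ∩ {x | V x ≠ ⊤} with hT'
  have mT' : MeasurableSet T' := hT.inter (hV (measurableSet_singleton ⊤)).compl
  set g : X d → ℝ := T'.indicator fun x => (t + (V x).toReal)⁻¹ with hg
  have ht1 : 0 < t ^ (p - 1) := Real.rpow_pos_of_pos ht _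
  have g0 : ∀ x, 0 ≤ g x := fun x =>
    Set.indicator_nonneg (fun x _ => inv_nonneg.2 (add_nonneg ht.le ENNReal.toReal_nonneg)) x
  have gm : Measurable g := ((measurable_const.add hV.ennreal_toReal).inv).indicator mT'
  have gl : ∫⁻ x, ENNReal.ofReal (g x) ≤ ENNReal.ofReal (t ^ (p - 1) * m) := by
    have a1 : ∀ x, ENNReal.ofReal (g x) ≤
        T.indicator (fun x => ENNReal.ofReal (t ^ (p - 1)) * V x ^ (-p)) x := by
      intro x
      by_cases hx : x ∈ T'
      · rw [hg, Set.indicator_of_mem hx, Set.indicator_of_mem hx.1]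
        exact Nash.ptw hp hp1 ht hx.2
      · rw [hg, Set.indicator_of_notMem hx]
        simp
    refine (lintegral_mono a1).trans ?_
    rw [lintegral_indicator hT, lintegral_const_mul' _ _ ENNReal.ofReal_ne_top,
      ENNReal.ofReal_mul ht1.le]
    gcongr
  have gi : Integrable g volume := by
    refine ⟨gm.aestronglyMeasurable, ?_⟩
    rw [hasFiniteIntegral_iff_ofReal (Eventually.of_forall g0)]
    exact lt_of_le_of_lt gl ENNReal.ofReal_lt_top
  have gI : ∫ x, g x ≤ t ^ (p - 1) * m := by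
    rw [← ofReal_integral_eq_lintegral_ofReal gi (Eventually.of_forall g0)] at gl
    exact (ENNReal.ofReal_le_ofReal_iff (by positivity)).1 gl
  have i1 := int_mul hf.h1.u2 hf.h1.u2
  have i2 := hf.int_self hV
  have iS : Integrable (fun x => t * (f.1 x * f.1 x) + (V x).toReal * (f.1 x * f.1 x)) volume :=
    (i1.const_mul t).add i2
  have eS : ∫ x, (t * (f.1 x * f.1 x) + (V x).toReal * (f.1 x * f.1 x)) =
      t * B f f + Pt V f f := by
    rw [integral_add (i1.const_mul t) i2, integral_const_mul]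
    rfl
  have pw : ∀ l : ℝ, ∀ᵐ x ∂volume, 2 * l * |f.1 x| ≤
      l ^ 2 * g x + (t * (f.1 x * f.1 x) + (V x).toReal * (f.1 x * f.1 x)) := by
    intro l
    filter_upwards [hz, hf.ae_top hV] with x h1 h2
    by_cases hx : x ∈ T'
    · rw [hg, Set.indicator_of_mem hx]
      have hs : 0 < t + (V x).toReal := add_pos_of_pos_of_nonneg ht ENNReal.toReal_nonneg
      set s := t + (V x).toReal with hsdef
      have e : t * (f.1 x * f.1 x) + (V x).toReal * (f.1 x * f.1 x) = s * |f.1 x| ^ 2 := by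
        rw [hsdef, sq_abs]; ring
      rw [e]
      have q : 0 ≤ s⁻¹ * (l - s * |f.1 x|) ^ 2 := by positivity
      have q2 : s⁻¹ * (l - s * |f.1 x|) ^ 2 = l ^ 2 * s⁻¹ - 2 * l * |f.1 x| + s * |f.1 x| ^ 2 := by
        field_simp
        ring
      linarith
    · have : f.1 x = 0 := by
        by_cases hxT : x ∈ T
        · apply h2
          by_contra hc
          exact hx ⟨hxT, hc⟩
        · exact h1 hxT
      rw [this]
      have := g0 x
      simp only [abs_zero, mul_zero, add_zero]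
      positivity
  have hi : Integrable f.1 volume := by
    refine Integrable.mono' (gi.add iS) hf.h1.u2.1 ?_
    filter_upwards [pw 1] with x hx
    simp only [Pi.add_apply, Real.norm_eq_abs]
    have := abs_nonneg (f.1 x)
    linarith
  refine ⟨hi, ?_⟩
  have hq : ∀ l : ℝ, 0 ≤ (∫ x, g x) * (l * l) + (-2 * ∫ x, |f.1 x|) * l +
      (t * B f f + Pt V f f) := by
    intro l
    have i3 : Integrable (fun x => l ^ 2 * g x +
        (t * (f.1 x * f.1 x) + (V x).toReal * (f.1 x * f.1 x))) volume :=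
      (gi.const_mul _).add iS
    have := integral_mono_ae (hi.abs.const_mul (2 * l)) i3 (pw l)
    rw [integral_add (gi.const_mul _) iS, integral_const_mul, integral_const_mul, eS] at this
    linarith
  have hdis := discrim_le_zero hq
  unfold discrim at hdis
  have hS : 0 ≤ t * B f f + Pt V f f :=
    add_nonneg (mul_nonneg ht.le (B_nonneg f)) (Pt_nonneg V f)
  have h5 := mul_le_mul_of_nonneg_right gI hS
  have e : t ^ p = t ^ (p - 1) * t := by
    rw [← Real.rpow_add_one ht.ne']
    congr 1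
    ring
  rw [e]
  nlinarith

end Pool.Agent.H639Z.OP
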